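import Pool.Agent.H367.OS.OOri

/-!
# The motives of algebraic cuspidal representations and single pieces of one sequence of cubics

A relation `r` of size `m` is one of the equations `x_i x_j = x_l`, `x_i + x_j = x_l`, `x_i = 1` with
`i, j, l < m`; the relations are numbered, the number of `r` is `ν(r)` (`relNum`). Let `G_m` be the
following polynomial with integral coefficients (`univG ℤ m`). There are variables `x_i` and `z_ij` for
`i, j < m`, a variable `c_r` for every relation `r`, and variables `y_{r,l}` for all relations `r` and
`l < (m + 1) 2 ^ ν(r)`. The equations (`eqnG`) are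

  `z_ij - x_i x_j`,  `c_r ^ 2 - c_r`,  `c_r ρ_r`,  `(1 - c_r) y_{r,l}`,

where `ρ_r` is the linear polynomial `z_ij - x_l`, `x_i + x_j - x_l` or `x_i - 1` of the relation.
`G_m` is the sum of the equations multiplied by further variables `t_e`, one for each equation. It has
degree three. Let `C_m` be the affine cubic hypersurface `G_m = 1` (`cubG R m` over the ring `R`); it is
smooth over the integers.

For a number field `E` let `M E` be the category of motives over `ℚ` for absolute Hodge cycles with
coefficients in `E`, a semisimple abelian category with Tate twists `N ↦ N(a)`. For a separated scheme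
`X` of finite type over `ℚ` let `(D E).G w j X = Gr^W_w H^j_c(X) ⊗ E` be the part of weight `w` of the
cohomology with compact supports; for smooth projective `Y` it is `h^j(Y) ⊗ E` if `j = w`, and zero
otherwise.

For an algebraic cuspidal automorphic representation `Π : Cusp` let `IsMotive Π E N` be the conditions
of question Q1 for `N = M_Π`: the field `E` contains `ℚ(Π)`, the motive `N` with coefficients in `E`
is absolutely irreducible and pure, of rank `n`, and it has the properties (1) and (2). So question Q1
for `Π` is `∃ E N, IsMotive Π E N`.

Every pure motive `N` with coefficients in `E` is a direct factor of one motive `h^i(Y)(t) ⊗ E`, for a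
smooth projective scheme `Y` over `ℚ` (hypothesis `pure`): it is a direct factor of a sum of motives
`h^{i_j}(Y_j)(a_j) ⊗ E` of the same weight, and one can take for `Y` the disjoint union of the schemes
`Y_j × ℙ^n`.

**Theorem.** Let `E_m` be the number of the equations, and for `N ∈ ℕ` let `e = (m + 1) N + E_m - 1`
(`esh m N`).

(1) For every `Π` question Q1 has a positive answer (there is a motive `M_Π`) if and only if for all
large `m` there are a number field `E` and a motive `M_Π` with coefficients in `E` which is a direct
factor of a Tate twist of a single motive `Gr^W_{j-1} H^j_c(C_m) ⊗ E`. Question Q1 has a positive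
answer for all `Π` if and only if this is so for all `Π`.

(2) For all `E`, `w` and `t` there is a motive `M_Π` which is a direct factor of `h^w(Y)(t) ⊗ E` for
some smooth projective `Y` if and only if for all large `m` there is one which is a direct factor of
the single motive `Gr^W_{w+2e} H^{w+2e+1}_c(C_m)(t + e) ⊗ E`, for some `N`.

(3) `G_m` has integral coefficients and degree at most three, and `C_m` is smooth over all rings.

The hypotheses on the motives are standard (`IsMot`): exact sequences, affine bundles, disjoint unions,
the cohomology of affine spaces, the weights of `H^j_c(X)` are between `0` and `2 dim X`, monomorphisms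
split, `Gr^W_w H^j_c(X)` is a direct factor of `h^w(Y)` for some smooth projective `Y` (it is a
subquotient, by the weight spectral sequence), and every smooth projective scheme has an affine bundle
whose total space is affine (Jouanolou).

Idea of the proof. The projection of `C_m` to the affine space with the coordinates `x, z, c, y` is an
affine bundle over the complement of the zero set `W_m` of the equations. The scheme `W_m` is the
disjoint union, over all sets `s` of relations (`c_r = 1` for `r ∈ s` and `c_r = 0` for the others), of
the products `X_s × 𝔸 ^ ((m + 1) N(s))`, where `X_s` is the affine scheme defined by the relations in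
`s` and `N(s) = ∑_{r ∈ s} 2 ^ ν(r)`. The numbers `N(s)` are different, and the weights of the
cohomology of `X_s` are between `0` and `2 m`. So the part of weight `w + 2 (m + 1) N(s)`,
`0 ≤ w ≤ 2 m + 1`, of the cohomology of `W_m` is the twist of the part of weight `w` of the cohomology of
`X_s`, and it is different from the weight of the cohomology of the affine space. Every affine scheme of
finite type over a prime field is an `X_s`, for all large `m`. The pieces of the cohomology of an
arbitrary scheme are direct factors of those of a disjoint union of affine schemes.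

The universal system of relations is the one of helper854 (`Pool.Agent.H854.SQ`).
-/

set_option autoImplicit false

open CategoryTheory CategoryTheory.Limits AlgebraicGeometry Pool.Agent.Y116.UV Pool.Agent.Z125.UN
  Pool.Agent.Q193.LT Pool.Agent.H854.SQ Pool.Agent.H367.OS

universe v u



namespace Pool.Agent.Results.MP_7742d9_nt.PiecesOfOneSequence

/-- **The motives of algebraic cuspidal representations and single pieces of one sequence of cubic
hypersurfaces over the integers.** See the explanations above. -/
theorem result {I : Type} {M : I → Type u} [∀ E, Category.{v} (M E)] [∀ E, Abelian (M E)]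
    {D : ∀ E, Pieces ℚ (M E)} (h : ∀ E, IsMot (D E)) {Cusp : Type}
    {IsMotive : Cusp → ∀ E, M E → Prop}
    (pure : ∀ Pi E N, IsMotive Pi E N → ∃ (Y : Sch ℚ) (i t : ℤ), SmoothProj Y ∧
      Factor N (((D E).tw t).obj ((D E).G i i Y))) :
    (∀ Pi : Cusp, (∃ E N, IsMotive Pi E N) ↔ ∀ᶠ m in Filter.atTop, ∃ (E : I) (j t : ℤ),
      HasFactor (IsMotive Pi E) (((D E).tw t).obj ((D E).G (j - 1) j (cubG ℚ m)))) ∧
    ((∀ Pi : Cusp, ∃ E N, IsMotive Pi E N) ↔ ∀ Pi : Cusp, ∀ᶠ m in Filter.atTop,
      ∃ (E : I) (j t : ℤ),
        HasFactor (IsMotive Pi E) (((D E).tw t).obj ((D E).G (j - 1) j (cubG ℚ m)))) ∧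
    (∀ (Pi : Cusp) (E : I) (w : ℕ) (t : ℤ),
      (∃ Y : Sch ℚ, SmoothProj Y ∧ HasFactor (IsMotive Pi E) (((D E).tw t).obj ((D E).G w w Y))) ↔
        ∀ᶠ m in Filter.atTop, ∃ N : ℕ, HasFactor (IsMotive Pi E) (((D E).tw (t + esh m N)).obj
          ((D E).G (w + 2 * esh m N) (w + 2 * esh m N + 1) (cubG ℚ m)))) ∧
    ∀ m : ℕ, (univG ℤ m).totalDegree ≤ 3 ∧
      ∀ (R : Type) [CommRing R], MvPolynomial.map (Int.castRingHom R) (univG ℤ m) = univG R m ∧
        Smooth (cubG R m).hom := by
  have h1 : ∀ Pi : Cusp, (∃ E N, IsMotive Pi E N) ↔ ∀ᶠ m in Filter.atTop, ∃ (E : I) (j t : ℤ),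
      HasFactor (IsMotive Pi E) (((D E).tw t).obj ((D E).G (j - 1) j (cubG ℚ m))) := by
    intro Pi
    constructor
    · rintro ⟨E, N, hN⟩
      obtain ⟨Y, i, t, hY, hf⟩ := pure Pi E N hN
      have h2 := (exists_all isPrimeField_rat (h E) (IsMotive Pi E)).mp ⟨Y, i, t, hY, N, hf, hN⟩
      exact h2.mono fun m hm => ⟨E, hm⟩
    · intro g
      obtain ⟨m, E, j, t, N, -, hN⟩ := g.exists
      exact ⟨E, N, hN⟩
  exact ⟨h1, forall_congr' h1,
    fun Pi E w t => exists_weight isPrimeField_rat (h E) (IsMotive Pi E) w t, cubG_facts⟩

end Pool.Agent.Results.MP_7742d9_nt.PiecesOfOneSequence
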