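import Pool.Agent.H500.LV.Irr

set_option autoImplicit false
set_option linter.unusedSectionVars false

/-!
# Clozel's conjecture: representations with solvable residual images are potentially of CM type

Let `Π` be an algebraic cuspidal automorphic representation of `GL_n` over a number field `K` (for Q1:
`K = ℚ`), of any infinity type, unramified at the places `v ∤ N`, with Hecke polynomials `P v` (of
`Π_v ⊗ |det|^((n-1)/2)` resp. its dual: geometric Frobenius elements, suitable Tate twist, so that the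
coefficients are in the ring of integers of a number field `E`).  Suppose that for a set of primes `λ` of
`E` of positive upper density the `P v` are matched modulo `λ` by a residual representation of dimension
`n` of the absolute Galois group of `K` with solvable image.

Then all the realizations of the motive predicted by the conjecture exist and it is potentially a sum
of CM motives of rank one: there are a finite solvable extension `L / K`, unramified outside `N`, and
algebraic Hecke characters `ψ 1, …, ψ n` of `L` (values in the algebraic integers, with an algebraic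
infinity type `t i`) with `det(X - Frob_w) = ∏ (X - ψ i (w))` at the places `w ∤ N` of `L` (the zeros of
`P v` to the power of the residue degree of `w | v`); the zeros of all the `P v` are pure of the same
weight `w` for all embeddings of `E` in `ℂ`; and for all `ℓ` and all `κ : E → PadicAlgCl ℓ` there are
continuous semisimple `ℓ-adic` representations attached to `P`, and every one of them is irreducible.

The two facts about `Π` which are used (as hypotheses on the `P v`, for one embedding of `E` in `ℂ`) are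
the bound of Jacquet and Shalika at ONE place and the simple pole of the Rankin-Selberg `L`-function in
the weak form: the sum of `|a_v|² (N v)^(-(w+s))`, `a_v` the trace, is at most `c log(1/(s-1))` with a constant
`c < 2` for some `s > 1` arbitrarily near `1`.
-/

namespace Pool.Agent.Results.MP_7742d9_nt.SolvableResidualImages

open NumberField IsDedekindDomain Filter Topology Polynomial
open Pool.Agent.W401.Cheb (GK IsFrob IsInert dens)
open Pool.Agent.H500.HC (InRay QBar ZBar jz)
open Pool.Agent.H500.SV (Above)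
open Pool.Agent.H500.TH (typB)
open Pool.Agent.H500.ME (SolvableAt Att)
open Pool.Agent.H500.LV (Irreducible)

theorem result (K E : Type) [Field K] [NumberField K] [Field E] [NumberField E] (j : E →+* QBar)
    (N n : ℕ) (hN : 2 ≤ N) (hn : 0 < n) (P : HeightOneSpectrum (𝓞 K) → (𝓞 E)[X])
    (h : ¬ Tendsto (dens (SolvableAt N n P)) atTop (𝓝 0)) (τ : E →+* ℂ) (w : ℤ)
    (v₀ : HeightOneSpectrum (𝓞 K)) (hv₀ : (N : 𝓞 K) ∉ v₀.asIdeal)
    (hJS : ∀ z ∈ ((P v₀).map (τ.comp (algebraMap (𝓞 E) E))).roots,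
      (Ideal.absNorm v₀.asIdeal : ℝ) ^ (((w : ℝ) - 1) / 2) < ‖z‖ ∧
      ‖z‖ < (Ideal.absNorm v₀.asIdeal : ℝ) ^ (((w : ℝ) + 1) / 2))
    (c : ℝ) (hc : c < 2)
    (hRS : ∃ᶠ s : ℝ in 𝓝[>] 1,
      ∑' v : {v : HeightOneSpectrum (𝓞 K) // (N : 𝓞 K) ∉ v.asIdeal},
        ‖τ ((P v.1).nextCoeff : E)‖ ^ 2 * (Ideal.absNorm v.1.asIdeal : ℝ) ^ (-((w : ℝ) + s)) ≤
      c * Real.log (1 / (s - 1))) :
    (∃ (L : Type) (_ : Field L) (_ : NumberField L) (_ : Algebra K L) (e : ℕ)
      (t : Fin n → (L →+* QBar) → ℕ) (ψ : Fin n → (Ideal (𝓞 L) →*₀ ZBar)),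
      IsGalois K L ∧ Group.IsSolvable (L ≃ₐ[K] L) ∧
      (∀ (v : HeightOneSpectrum (𝓞 K)) (w : HeightOneSpectrum (𝓞 L)),
        (N : 𝓞 K) ∉ v.asIdeal → Above w v →
        ¬ v.asIdeal.map (algebraMap (𝓞 K) (𝓞 L)) ≤ w.asIdeal ^ 2) ∧
      (∀ i (𝔞 : Ideal (𝓞 L)), 𝔞 ≠ ⊥ → (ψ i 𝔞 ≠ 0 ↔ IsCoprime 𝔞 (Ideal.span {(N : 𝓞 L)}))) ∧
      (∀ i (x : 𝓞 L), InRay (N ^ e) x → ψ i (Ideal.span {x}) = typB (t i) x) ∧
      ∀ (v : HeightOneSpectrum (𝓞 K)) (w : HeightOneSpectrum (𝓞 L)) (f : ℕ) (α : Fin n → ZBar),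
        (N : 𝓞 K) ∉ v.asIdeal → Above w v →
        Ideal.absNorm w.asIdeal = Ideal.absNorm v.asIdeal ^ f →
        (P v).map (jz j) = ∏ i, (X - Polynomial.C (α i)) →
        ∏ i, (X - Polynomial.C (α i ^ f)) = ∏ i, (X - Polynomial.C (ψ i w.asIdeal))) ∧
    (∀ (σ : E →+* ℂ) (v : HeightOneSpectrum (𝓞 K)), (N : 𝓞 K) ∉ v.asIdeal →
      ∀ z ∈ ((P v).map (σ.comp (algebraMap (𝓞 E) E))).roots,
        ‖z‖ = (Ideal.absNorm v.asIdeal : ℝ) ^ ((w : ℝ) / 2)) ∧
    ∀ (ℓ : ℕ) [Fact ℓ.Prime] (κ : E →+* PadicAlgCl ℓ),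
      (∃ ρ : GK K →* GL (Fin n) (PadicAlgCl ℓ), Att N n P ℓ κ ρ) ∧
      ∀ ρ : GK K →* GL (Fin n) (PadicAlgCl ℓ), Att N n P ℓ κ ρ → Irreducible ρ := by
  have hP : Pool.Agent.H500.MW.PosUD (Pool.Agent.H500.TH.SolRes N n P) :=
    Pool.Agent.H500.MW.PosUD.mono (Pool.Agent.H500.MW.posUD_of_not h) fun _ hv => hv.solRes
  exact ⟨Pool.Agent.H500.TH.sol j N n hN P hP,
    fun σ v hv z hz => Pool.Agent.H500.LV.pure_main K E N n hN P h τ w v₀ hv₀ hJS σ v hv z hz,
    fun ℓ _ κ => Pool.Agent.H500.LV.irr_main K E N n hN hn P h τ w v₀ hv₀ hJS c hc hRS ℓ κ⟩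

end Pool.Agent.Results.MP_7742d9_nt.SolvableResidualImages
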